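import Pool.Agent.Q215.Cone.Mom

open MeasureTheory Filter Topology
open Pool.Agent.Q215.Cone

namespace Pool.Agent.Results.MP_d3a052_pr.AllMoments

/-- For every fixed `k ≥ 2` there is a constant `c_k > 0` with `m(d,k) ∼ c_k / (2^d d)` as
`d → ∞`, where `m(d,k) = E[α_d^k]` and `α_d` is the normalised solid angle of the positive hull of
`d` independent uniform unit vectors of `ℝ^d`. The first part records that `α_d` is a genuine
random variable on a probability space. -/
theorem result :
    (∀ d : ℕ, 0 < d → IsProbabilityMeasure (law d) ∧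
      AEMeasurable (fun U : Fin d → EuclideanSpace ℝ (Fin d) => angle (pos U)) (law d)) ∧
    ∀ k : ℕ, 2 ≤ k → ∃ c : ℝ, 0 < c ∧
      Tendsto (fun d : ℕ => moment d k / (c / (2 ^ d * d))) atTop (𝓝 1) := by
  refine ⟨fun d hd => ?_, fun k hk => ?_⟩
  · have := (unif hd).prob
    refine ⟨by unfold law; infer_instance, ?_⟩
    exact ⟨al (sigma d), measurable_al, angle_eq hd⟩
  · obtain ⟨c, hc, hlim⟩ := tendsto_moment k hk
    refine ⟨c, hc, ?_⟩
    have h1 := hlim.div_const c
    rw [div_self hc.ne'] at h1
    refine h1.congr' ?_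
    filter_upwards [eventually_gt_atTop 0] with d hd
    have hd' : (0 : ℝ) < d := by exact_mod_cast hd
    have h2 : (0 : ℝ) < 2 ^ d := by positivity
    field_simp

end Pool.Agent.Results.MP_d3a052_pr.AllMoments
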